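import Pool.Agent.H8.TX.Targets
import Pool.Agent.H18.HX.Basic

/-!
# Zariski dense orbits on threefolds: representations of the iterates
-/

set_option autoImplicit false

open MvPolynomial
open Pool.Agent.H12.ZD (pmap)
open Pool.Agent.H18.HIT Pool.Agent.H18.HX Pool.Agent.H18.VZ
open Pool.Agent.H8.ZA (HFam Const NA)
open Pool.Agent.H8.TD (lc dg Wsp Cop dh)
open Pool.Agent.H8.TX

namespace Pool.Agent.H10.TX

/-- substitution of multiples in a field -/
theorem aeval_scale {N t : ℕ} {k K : Type} [Field k] [Field K] [Algebra k K] {q : Po N k}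
    (hq : q.IsHomogeneous t) (h : K) (w : Fin N → K) :
    aeval (fun i => h * w i) q = h ^ t * aeval w q := by
  rw [aeval_def, aeval_def, eval₂_eq', eval₂_eq', Finset.mul_sum]
  apply Finset.sum_congr rfl
  intro m hm
  have h1 : ∏ i, (h * w i) ^ m i = h ^ t * ∏ i, w i ^ m i := by
    rw [Finset.prod_congr rfl fun i _ => mul_pow h (w i) (m i), Finset.prod_mul_distrib,
      Finset.prod_pow_eq_pow_sum]
    congr 2
    have h2 := hq (mem_support_iff.mp hm)
    rw [Finsupp.weight_apply, Finsupp.sum_fintype _ _ (fun i => by simp)] at h2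
    simpa using h2
  rw [h1]
  ring

/-- an irreducible polynomial does not divide all the variables -/
theorem exists_not_dvd_X {N : ℕ} {k : Type} [Field k] {P : Po (N + 1) k} (hP : Irreducible P)
    (hN : 1 ≤ N) (h : ∀ i, P ∣ X i) : False := by
  have h0 : Irreducible (X 0 : Po (N + 1) k) := X_prime.irreducible
  have h1 : Associated P (X 0) := hP.associated_of_dvd h0 (h 0)
  have h2 : (X 0 : Po (N + 1) k) ∣ X (Fin.last N) := h1.symm.dvd.trans (h (Fin.last N))
  rw [X_dvd_X] at h2
  have h3 := congrArg Fin.val h2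
  rw [Fin.val_zero, Fin.val_last] at h3
  omega

/-- a form in the variables of the base is not divisible by `P` -/
theorem up_not_dvd {N r : ℕ} {k : Type} [Field k] {P : Po (N + 1) k} (hP : Hyp P r) {c : Po N k}
    (h : P ∣ up c) : c = 0 := by
  have hup : ∀ c : Po N k, finSuccEquiv k N (up c) = Polynomial.C c := by
    intro c
    unfold up
    induction c using MvPolynomial.induction_on with
    | C c => rw [rename_C, finSuccEquiv_apply, eval₂Hom_C, RingHom.comp_apply]
    | add p q hp hq => rw [map_add, map_add, hp, hq, Polynomial.C_add]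
    | mul_X p i hp =>
      rw [map_mul, map_mul, hp, rename_X, finSuccEquiv_X_succ, Polynomial.C_mul]
  have hmon : (finSuccEquiv k N P).Monic := hP.mon
  have hpos : 0 < (finSuccEquiv k N P).natDegree := by
    rw [Nat.pos_iff_ne_zero]
    intro h0
    have h2 := hmon.natDegree_eq_zero.mp h0
    apply hP.irr.not_isUnit
    have h3 : P = 1 := by
      apply (finSuccEquiv k N).injective
      rw [h2, map_one]
    rw [h3]
    exact isUnit_one
  have h4 : finSuccEquiv k N P ∣ Polynomial.C c := by
    rw [← hup]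
    exact map_dvd (finSuccEquiv k N) h
  by_contra hc
  have h5 := Polynomial.natDegree_le_of_dvd h4 (by rwa [Ne, Polynomial.C_eq_zero])
  rw [Polynomial.natDegree_C] at h5
  omega

theorem map_aeval' {M N : ℕ} {k K : Type} [Field k] [CommRing K] [Algebra k K]
    (φ : Po M k →ₐ[k] K) (w : Fin N → Po M k) (q : Po N k) :
    φ (aeval w q) = aeval (fun j => φ (w j)) q := by
  have h : φ.comp (aeval w : Po N k →ₐ[k] Po M k) = aeval (fun j => φ (w j)) := by
    apply algHom_ext
    intro i
    rw [AlgHom.comp_apply, aeval_X, aeval_X]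
  exact DFunLike.congr_fun h q

section

variable {L N : ℕ} {k Fr : Type} [Field k] [Field Fr] [Algebra k Fr] {I : Ideal (Po L k)}
  {l : Fin (N + 1) → Po L k} {P : Po (N + 1) k} {r δ d : ℕ} {Δ : Po N k} {g : Tup L k}
  {F : Tup (N + 1) k} (φ : Po L k →ₐ[k] Fr)

/-- the iterates of the map and of the projected map -/
theorem it_scale (hφ : ∀ q, φ q = 0 ↔ q ∈ I) (hpr : Pro I l P r Δ δ) (hg : Slf I g)
    (hF : ∀ i, (F i).IsHomogeneous (d + δ))
    (hrel : ∀ i, aeval (fun j : Fin N => l j.succ) Δ * aeval g (l i) - aeval l (F i) ∈ I) (n : ℕ) :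
    ∃ κ : Fr, κ ≠ 0 ∧ ∀ i, φ (aeval l (it F n i)) = κ * φ (aeval (it g n) (l i)) := by
  have hΔ : φ (aeval (fun j : Fin N => l j.succ) Δ) ≠ 0 := by
    intro h
    rw [hφ] at h
    have h1 : aeval l (up Δ) = aeval (fun j : Fin N => l j.succ) Δ := by
      unfold up
      rw [aeval_rename]
      rfl
    rw [← h1, hpr.ker] at h
    exact hpr.dne (up_not_dvd hpr.hyp h)
  induction n with
  | zero =>
    refine ⟨1, one_ne_zero, fun i => ?_⟩
    rw [it_zero, it_zero, aeval_X, aeval_X_left_apply, one_mul]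
  | succ n ih =>
    obtain ⟨κ, hκ, ih⟩ := ih
    refine ⟨κ ^ (d + δ) * φ (aeval (it g n) (aeval (fun j : Fin N => l j.succ) Δ)),
      mul_ne_zero (pow_ne_zero _ hκ) ?_, fun i => ?_⟩
    · intro h
      rw [hφ] at h
      exact hΔ ((hφ _).mpr ((hg.it n).inj _ h))
    · have h1 : aeval l (it F (n + 1) i) = aeval (fun j => aeval l (it F n j)) (F i) := by
        rw [it_succ]
        exact map_aeval' (aeval l) (it F n) (F i)
      have h2 := (hφ _).mpr ((hg.it n).inv _ (hrel i))
      rw [map_sub, map_sub, sub_eq_zero, map_mul, map_mul] at h2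
      rw [h1, map_aeval' φ, funext ih, aeval_scale (hF i)]
      have h3 : aeval (fun j => φ (aeval (it g n) (l j))) (F i) =
          φ (aeval (it g n) (aeval l (F i))) := by
        rw [map_aeval' (aeval (it g n)) l (F i), map_aeval' φ]
      rw [h3, ← h2, aeval_it_succ, mul_assoc]

end

theorem pf_TGR : T_TGR := by
  intro L N r δ d k _ _ _ I hI l P Δ g F hpr hhom hgh hg hFh hrel hF n b H hHh hH hcr
  obtain ⟨Fr, fFr, aFr, φ, hφ⟩ : ∃ (Fr : Type) (_ : Field Fr) (_ : Algebra k Fr)
      (φ : Po L k →ₐ[k] Fr), ∀ q, φ q = 0 ↔ q ∈ I := by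
    refine ⟨FractionRing (Po L k ⧸ I), inferInstance, inferInstance,
      (Algebra.ofId (Po L k ⧸ I) (FractionRing (Po L k ⧸ I))).restrictScalars k |>.comp
        (Ideal.Quotient.mkₐ k I), fun q => ?_⟩
    rw [← Ideal.Quotient.eq_zero_iff_mem (I := I)]
    exact map_eq_zero_iff (algebraMap (Po L k ⧸ I) (FractionRing (Po L k ⧸ I)))
      (IsFractionRing.injective _ _)
  have hΔ : φ (aeval (fun j : Fin N => l j.succ) Δ) ≠ 0 := by
    intro h
    rw [hφ] at h
    have h1 : aeval l (up Δ) = aeval (fun j : Fin N => l j.succ) Δ := by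
      unfold up
      rw [aeval_rename]
      rfl
    rw [← h1, hpr.ker] at h
    exact hpr.dne (up_not_dvd hpr.hyp h)
  obtain ⟨κ, hκ, hit⟩ := it_scale φ hφ hpr hg hFh hrel n
  obtain ⟨j₀, hj₀⟩ := hH
  have hA : φ (aeval l (H j₀)) ≠ 0 := by
    rw [Ne, hφ, hpr.ker]
    exact hj₀
  -- the two representations
  have hcr' : ∀ i, φ (aeval l (it F n i)) * φ (aeval l (H j₀)) =
      φ (aeval l (it F n j₀)) * φ (aeval l (H i)) := by
    intro i
    have h1 := (hφ _).mpr ((hpr.ker _).mpr (hcr i j₀))
    rw [map_sub, map_sub, sub_eq_zero, map_mul, map_mul, map_mul, map_mul] at h1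
    exact h1
  have hB : φ (aeval l (it F n j₀)) ≠ 0 := by
    intro h0
    apply exists_not_dvd_X hpr.hyp.irr hpr.one
    intro i
    have h1 : φ (aeval l (it F n i)) = 0 := by
      have h2 := hcr' i
      rw [h0, zero_mul] at h2
      exact (mul_eq_zero.mp h2).resolve_right hA
    rw [hφ, hpr.ker] at h1
    have h2 : aeval (it F n) (X i : Po (N + 1) k) ∈ Ideal.span {P} := by
      rw [aeval_X]
      exact Ideal.mem_span_singleton.mpr h1
    exact Ideal.mem_span_singleton.mp ((hF.it n).inj _ h2)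
  have hH' : ∀ i, φ (aeval l (H i)) =
      (φ (aeval l (H j₀)) / φ (aeval l (it F n j₀)) * κ) * φ (aeval (it g n) (l i)) := by
    intro i
    have h1 := hcr' i
    rw [hit i] at h1
    field_simp
    linear_combination -h1
  set μ := φ (aeval l (H j₀)) / φ (aeval l (it F n j₀)) * κ with hμ
  have hμ0 : μ ≠ 0 := mul_ne_zero (div_ne_zero hA hB) hκ
  choose R hR hR' using fun i : Fin L => hpr.den 1 (X i) (isHomogeneous_X k i)
  have hG : ∀ i, φ (aeval l (aeval H (R i))) =
      μ ^ (1 + δ) * φ (aeval (it g n) (aeval (fun j : Fin N => l j.succ) Δ)) * φ (it g n i) := by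
    intro i
    have h2 := (hφ _).mpr ((hg.it n).inv _ (hR' i))
    rw [map_sub, map_sub, sub_eq_zero, map_mul, map_mul, aeval_X] at h2
    rw [map_aeval' (aeval l) H (R i), map_aeval' φ, funext hH', aeval_scale (hR i)]
    have h3 : aeval (fun j => φ (aeval (it g n) (l j))) (R i) =
        φ (aeval (it g n) (aeval l (R i))) := by
      rw [map_aeval' (aeval (it g n)) l (R i), map_aeval' φ]
    rw [h3, ← h2, mul_assoc]
  have hν : μ ^ (1 + δ) * φ (aeval (it g n) (aeval (fun j : Fin N => l j.succ) Δ)) ≠ 0 := by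
    refine mul_ne_zero (pow_ne_zero _ hμ0) fun h => hΔ ?_
    rw [hφ] at h ⊢
    exact (hg.it n).inj _ h
  refine ⟨fun i => aeval l (aeval H (R i)), fun i => ?_, ?_, fun i j => ?_⟩
  · have h1 : (aeval H (R i)).IsHomogeneous (b * (1 + δ)) := IsHomogeneous.aeval (hR i) H hHh
    have h2 := IsHomogeneous.aeval h1 l hpr.lin
    rwa [one_mul, mul_comm] at h2
  · by_contra hall
    push Not at hall
    have h1 : ∀ i, φ (X i) = 0 := by
      intro i
      have h2 := (hφ _).mpr (hall i)
      rw [hG i] at h2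
      have h3 := (mul_eq_zero.mp h2).resolve_left hν
      rw [hφ] at h3 ⊢
      apply (hg.it n).inj
      rw [aeval_X]
      exact h3
    have h2 : ∀ i, φ (l i) = 0 := by
      intro i
      have h3 : l i = aeval X (l i) := (aeval_X_left_apply _).symm
      rw [h3, map_aeval' φ]
      have h4 : (fun j => φ (X j)) = fun j : Fin L => (0 : Fr) * φ (X j) := by
        funext j
        rw [h1 j, mul_zero]
      rw [h4, aeval_scale (hpr.lin i), pow_one, zero_mul]
    apply exists_not_dvd_X hpr.hyp.irr hpr.one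
    intro i
    rw [← hpr.ker, aeval_X, ← hφ]
    exact h2 i
  · rw [← hφ, map_sub, map_mul, map_mul, hG i, hG j]
    ring

end Pool.Agent.H10.TX
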